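import Pool.Agent.U112.CM.Pert

/-!
# Completely multiplicative functions near the class of `H280R3.MO.core`
-/

set_option autoImplicit false

namespace Pool.Agent.U112.CM

open Finset Complex Filter Topology Asymptotics Pool.Agent.H280R3.MO

variable (f : ℕ →*₀ ℂ) (h : ℕ → ℂ)

/-- values of `h` at the primes below `B`, values of `f` at the others -/
noncomputable def mix (B : ℕ) : ℕ →*₀ ℂ := mk fun p => if p < B then h p else f p

/-- the size of the change at `p` -/
noncomputable def ch (p : ℕ) : ℝ := if p.Prime then 4 * Real.sqrt p * ‖h p - f p‖ else 0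

lemma ch_nonneg (p : ℕ) : 0 ≤ ch f h p := by
  unfold ch
  split_ifs
  · positivity
  · exact le_rfl

lemma mix_lt {B p : ℕ} (hp : p.Prime) (hB : p < B) : mix f h B p = h p := by
  unfold mix
  rw [mk_prime _ p hp, if_pos hB]

lemma mix_ge {B p : ℕ} (hp : p.Prime) (hB : ¬ p < B) : mix f h B p = f p := by
  unfold mix
  rw [mk_prime _ p hp, if_neg hB]

lemma mix_ne {B p : ℕ} (hp : p.Prime) (hne : p ≠ B) : mix f h B p = mix f h (B + 1) p := by
  rcases lt_or_ge p B with hl | hl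
  · rw [mix_lt f h hp hl, mix_lt f h hp (by omega)]
  · rw [mix_ge f h hp (by omega), mix_ge f h hp (by omega)]

lemma mix_zero (N : ℕ) : S (mix f h 0) N = S f N :=
  S_agree _ _ N fun p hp _ => mix_ge f h hp (by omega)

lemma mix_large (B N : ℕ) (hB : N < B) : S (mix f h B) N = S (mk h) N :=
  S_agree _ _ N fun p hp hpN => by
    rw [mix_lt f h hp (by omega), mk_prime _ p hp]

lemma mix_same (B N : ℕ) (hB : ¬ (B.Prime ∧ h B ≠ f B)) :
    S (mix f h (B + 1)) N = S (mix f h B) N := by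
  refine S_agree _ _ N fun p hp _ => ?_
  rcases eq_or_ne p B with rfl | hne
  · have e : h p = f p := by
      by_contra hh
      exact hB ⟨hp, hh⟩
    rw [mix_lt f h hp (by omega), mix_ge f h hp (by omega), e]
  · exact (mix_ne f h hp hne).symm

/-- one step -/
lemma mix_step (hh : ∀ p : ℕ, p.Prime → h p = f p ∨ ‖h p‖ * Real.sqrt p ≤ 3 / 4) (B : ℕ) (C : ℝ) (hC : 0 ≤ C)
    (hu : ∀ N, ‖S (mix f h B) N‖ ≤ C * wt N) (N : ℕ) :
    ‖S (mix f h (B + 1)) N - S (mix f h B) N‖ ≤ ch f h B * C * wt N := by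
  by_cases hB : B.Prime ∧ h B ≠ f B
  · have hle : ‖h B‖ * Real.sqrt B ≤ 3 / 4 := (hh B hB.1).resolve_left hB.2
    have e1 : mix f h (B + 1) B = h B := mix_lt f h hB.1 (by omega)
    have e2 : mix f h B B = f B := mix_ge f h hB.1 (by omega)
    have := step_bd (mix f h B) (mix f h (B + 1)) B hB.1 (fun p hp hne => mix_ne f h hp hne)
      (by rw [e1]; exact hle) C hC hu N
    rw [e1, e2] at this
    unfold ch
    rw [if_pos hB.1]
    exact this
  · rw [mix_same f h B N hB, sub_self, norm_zero]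
    have := ch_nonneg f h B
    have := wt_pos N
    positivity

lemma mix_bd (hh : ∀ p : ℕ, p.Prime → h p = f p ∨ ‖h p‖ * Real.sqrt p ≤ 3 / 4) (C : ℝ) (hC : 0 ≤ C)
    (hf : ∀ N, ‖S f N‖ ≤ C * wt N) (B : ℕ) :
    ∀ N, ‖S (mix f h B) N‖ ≤ C * Real.exp (∑ p ∈ range B, ch f h p) * wt N := by
  induction B with
  | zero =>
    intro N
    rw [mix_zero, Finset.range_zero, Finset.sum_empty, Real.exp_zero, mul_one]
    exact hf N
  | succ B ih =>
    intro N
    have h1 := mix_step f h hh B _ (by positivity) ih N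
    have h2 := ih N
    have h3 := Real.add_one_le_exp (ch f h B)
    have hw := wt_pos N
    rw [Finset.sum_range_succ, Real.exp_add]
    generalize Real.exp (∑ p ∈ range B, ch f h p) = A at *
    calc ‖S (mix f h (B + 1)) N‖
        = ‖(S (mix f h (B + 1)) N - S (mix f h B) N) + S (mix f h B) N‖ := by
          rw [sub_add_cancel]
      _ ≤ ‖S (mix f h (B + 1)) N - S (mix f h B) N‖ + ‖S (mix f h B) N‖ := norm_add_le _ _
      _ ≤ ch f h B * (C * A) * wt N + C * A * wt N := add_le_add h1 h2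
      _ = (ch f h B + 1) * (C * A * wt N) := by ring
      _ ≤ Real.exp (ch f h B) * (C * A * wt N) := by
          refine mul_le_mul_of_nonneg_right h3 ?_
          exact (norm_nonneg _).trans h2
      _ = C * (A * Real.exp (ch f h B)) * wt N := by ring

lemma mix_small (hh : ∀ p : ℕ, p.Prime → h p = f p ∨ ‖h p‖ * Real.sqrt p ≤ 3 / 4) (C : ℝ) (hC : 0 ≤ C)
    (hf : ∀ N, ‖S f N‖ ≤ C * wt N) (hs : Small (fun N => S f N)) (B : ℕ) :
    Small (fun N => S (mix f h B) N) := by
  induction B with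
  | zero =>
    intro ε hε
    obtain ⟨N1, h1⟩ := hs ε hε
    refine ⟨N1, fun N hN => ?_⟩
    show ‖S (mix f h 0) N‖ ≤ _
    rw [mix_zero]
    exact h1 N hN
  | succ B ih =>
    by_cases hB : B.Prime ∧ h B ≠ f B
    · have hle : ‖h B‖ * Real.sqrt B ≤ 3 / 4 := (hh B hB.1).resolve_left hB.2
      have e1 : mix f h (B + 1) B = h B := mix_lt f h hB.1 (by omega)
      refine step_small (mix f h B) (mix f h (B + 1)) B hB.1
        (fun p hp hne => mix_ne f h hp hne) (by rw [e1]; exact hle) ih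
        (ch f h B * (C * Real.exp (∑ p ∈ range B, ch f h p))) ?_ ?_
      · have := ch_nonneg f h B
        positivity
      · exact fun N => mix_step f h hh B _ (by positivity) (mix_bd f h hh C hC hf B) N
    · intro ε hε
      obtain ⟨N1, h1⟩ := ih ε hε
      refine ⟨N1, fun N hN => ?_⟩
      show ‖S (mix f h (B + 1)) N‖ ≤ _
      rw [mix_same f h B N hB]
      exact h1 N hN

lemma mix_diff (hh : ∀ p : ℕ, p.Prime → h p = f p ∨ ‖h p‖ * Real.sqrt p ≤ 3 / 4) (C : ℝ) (hC : 0 ≤ C)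
    (hf : ∀ N, ‖S f N‖ ≤ C * wt N) (hsum : Summable (ch f h)) (B k N : ℕ) :
    ‖S (mix f h (B + k)) N - S (mix f h B) N‖ ≤
      (∑ p ∈ range (B + k), ch f h p - ∑ p ∈ range B, ch f h p) *
        (C * Real.exp (∑' p, ch f h p)) * wt N := by
  induction k with
  | zero => simp
  | succ k ih =>
    have hb : ∀ M, ‖S (mix f h (B + k)) M‖ ≤ C * Real.exp (∑' p, ch f h p) * wt M := by
      intro M
      refine (mix_bd f h hh C hC hf (B + k) M).trans ?_
      have := wt_pos M
      have h5 : ∑ p ∈ range (B + k), ch f h p ≤ ∑' p, ch f h p :=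
        hsum.sum_le_tsum _ (fun p _ => ch_nonneg f h p)
      gcongr
    have h1 := mix_step f h hh (B + k) _ (by positivity) hb N
    rw [← add_assoc, Finset.sum_range_succ]
    calc ‖S (mix f h (B + k + 1)) N - S (mix f h B) N‖
        = ‖(S (mix f h (B + k + 1)) N - S (mix f h (B + k)) N) +
            (S (mix f h (B + k)) N - S (mix f h B) N)‖ := by rw [sub_add_sub_cancel]
      _ ≤ _ := norm_add_le _ _
      _ ≤ _ := add_le_add h1 ih
      _ = _ := by ring

lemma small_mk (hh : ∀ p : ℕ, p.Prime → h p = f p ∨ ‖h p‖ * Real.sqrt p ≤ 3 / 4) (C : ℝ) (hC : 0 ≤ C)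
    (hf : ∀ N, ‖S f N‖ ≤ C * wt N) (hs : Small (fun N => S f N)) (hsum : Summable (ch f h)) :
    Small (fun N => S (mk h) N) := by
  intro ε hε
  set A := C * Real.exp (∑' p, ch f h p) with hA
  have hA0 : 0 ≤ A := by positivity
  have ht := hsum.hasSum.tendsto_sum_nat
  have hev := ht.eventually (lt_mem_nhds (show ∑' p, ch f h p - ε / (2 * (A + 1)) <
    ∑' p, ch f h p by
      have : 0 < ε / (2 * (A + 1)) := by positivity
      linarith))
  obtain ⟨B, hB⟩ := hev.exists
  obtain ⟨N1, h1⟩ := mix_small f h hh C hC hf hs B (ε / 2) (by positivity)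
  refine ⟨N1, fun N hN => ?_⟩
  have a1 := h1 N hN
  have a2 := mix_diff f h hh C hC hf hsum B (N + 1) N
  rw [mix_large f h (B + (N + 1)) N (by omega)] at a2
  have hw := wt_pos N
  have h5 : ∑ p ∈ range (B + (N + 1)), ch f h p ≤ ∑' p, ch f h p :=
    hsum.sum_le_tsum _ (fun p _ => ch_nonneg f h p)
  have h6 : (∑ p ∈ range (B + (N + 1)), ch f h p - ∑ p ∈ range B, ch f h p) ≤
      ε / (2 * (A + 1)) := by linarith
  have h7 : (∑ p ∈ range (B + (N + 1)), ch f h p - ∑ p ∈ range B, ch f h p) * A ≤ ε / 2 := by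
    calc _ ≤ ε / (2 * (A + 1)) * A := mul_le_mul_of_nonneg_right h6 hA0
      _ = ε / 2 * (A / (A + 1)) := by field_simp
      _ ≤ ε / 2 * 1 := by
          refine mul_le_mul_of_nonneg_left ?_ (by positivity)
          rw [div_le_one (by positivity)]
          linarith
      _ = ε / 2 := mul_one _
  calc ‖S (mk h) N‖ = ‖(S (mk h) N - S (mix f h B) N) + S (mix f h B) N‖ := by
        rw [sub_add_cancel]
    _ ≤ ‖S (mk h) N - S (mix f h B) N‖ + ‖S (mix f h B) N‖ := norm_add_le _ _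
    _ ≤ ε / 2 * wt N + ε / 2 * wt N :=
        add_le_add (a2.trans (mul_le_mul_of_nonneg_right h7 hw.le)) a1
    _ = ε * wt N := by ring

lemma wt_le (N : ℕ) (hN : 1 ≤ N) : wt N ≤ (N : ℝ) ^ (-(1 / 2) : ℝ) := by
  have hN0 : (0 : ℝ) < N := by exact_mod_cast hN
  rw [Real.rpow_neg hN0.le, ← Real.sqrt_eq_rpow]
  unfold wt
  have a : 0 < Real.sqrt (N : ℝ) := Real.sqrt_pos.2 hN0
  exact inv_anti₀ a (Real.sqrt_le_sqrt (by linarith))

lemma le_wt (N : ℕ) (hN : 1 ≤ N) : (N : ℝ) ^ (-(1 / 2) : ℝ) ≤ 2 * wt N := by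
  have hN0 : (0 : ℝ) < N := by exact_mod_cast hN
  have hN1 : (1 : ℝ) ≤ N := by exact_mod_cast hN
  rw [Real.rpow_neg hN0.le, ← Real.sqrt_eq_rpow]
  unfold wt
  have a : 0 < Real.sqrt (N : ℝ) := Real.sqrt_pos.2 hN0
  have b : 0 < Real.sqrt ((N : ℝ) + 1) := Real.sqrt_pos.2 (by linarith)
  have c : Real.sqrt ((N : ℝ) + 1) ≤ 2 * Real.sqrt N := by
    rw [show (2 : ℝ) * Real.sqrt N = Real.sqrt (4 * N) by
      rw [Real.sqrt_mul (by norm_num), show (4 : ℝ) = 2 ^ 2 by norm_num,
        Real.sqrt_sq (by norm_num)]]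
    exact Real.sqrt_le_sqrt (by linarith)
  rw [← div_eq_mul_inv, inv_eq_one_div, div_le_div_iff₀ a b]
  linarith

/-- the perturbation theorem -/
theorem perturb (hh : ∀ p : ℕ, p.Prime → h p = f p ∨ ‖h p‖ * Real.sqrt p ≤ 3 / 4) (hsum : Summable (ch f h))
    (h1 : (fun N : ℕ => S f N) =o[atTop] (fun N : ℕ => (N : ℝ) ^ (-(1 / 2) : ℝ))) :
    (fun N : ℕ => S (mk h) N) =o[atTop] (fun N : ℕ => (N : ℝ) ^ (-(1 / 2) : ℝ)) := by
  obtain ⟨C, hC0, hC⟩ := exists_Bd f h1
  have hf : ∀ N, ‖S f N‖ ≤ (2 * C) * wt N := by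
    intro N
    rcases Nat.eq_zero_or_pos N with rfl | hN
    · rw [S_zero, norm_zero]
      have := wt_pos 0
      positivity
    · refine (hC N hN).trans ?_
      have := le_wt N hN
      nlinarith
  have hs : Small (fun N => S f N) := by
    intro ε hε
    have := isLittleO_iff.1 h1 (c := ε / 2) (by positivity)
    obtain ⟨N1, hN1⟩ := eventually_atTop.1 this
    refine ⟨N1 + 1, fun N hN => (hN1 N (by omega)).trans ?_⟩
    rw [Real.norm_of_nonneg (by positivity)]
    have := le_wt N (by omega)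
    nlinarith
  have hr := small_mk f h hh (2 * C) (by positivity) hf hs hsum
  rw [isLittleO_iff]
  intro c hc
  obtain ⟨N1, hN1⟩ := hr c hc
  filter_upwards [eventually_ge_atTop (N1 + 1)] with N hN
  refine (hN1 N (by omega)).trans ?_
  rw [Real.norm_of_nonneg (by positivity)]
  exact mul_le_mul_of_nonneg_left (wt_le N (by omega)) hc.le

end Pool.Agent.U112.CM
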