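import Pool.Agent.H280R3.MO.F

/-!
# Perturbation of completely multiplicative functions with small partial sums
-/

set_option autoImplicit false

namespace Pool.Agent.U112.CM

open Finset Complex Filter Topology Asymptotics Pool.Agent.H280R3.MO

/-- the weight `(N + 1) ^ (-1/2)` -/
noncomputable def wt (N : ℕ) : ℝ := (Real.sqrt ((N : ℝ) + 1))⁻¹

lemma wt_pos (N : ℕ) : 0 < wt N := by
  unfold wt
  have : 0 < Real.sqrt ((N : ℝ) + 1) := Real.sqrt_pos.2 (by positivity)
  positivity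

lemma wt_div (P : ℕ) (hP : 0 < P) (N : ℕ) : wt (N / P) ≤ Real.sqrt P * wt N := by
  have h1 : N < P * (N / P + 1) := Nat.lt_mul_div_succ N hP
  have h2 : ((N : ℝ) + 1) ≤ P * (((N / P : ℕ) : ℝ) + 1) := by
    have : N + 1 ≤ P * (N / P + 1) := h1
    exact_mod_cast this
  have h3 : Real.sqrt ((N : ℝ) + 1) ≤ Real.sqrt P * Real.sqrt (((N / P : ℕ) : ℝ) + 1) := by
    rw [← Real.sqrt_mul (by positivity)]
    exact Real.sqrt_le_sqrt h2
  unfold wt
  have a : 0 < Real.sqrt ((N : ℝ) + 1) := Real.sqrt_pos.2 (by positivity)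
  have b : 0 < Real.sqrt (((N / P : ℕ) : ℝ) + 1) := Real.sqrt_pos.2 (by positivity)
  rw [← div_eq_mul_inv, inv_eq_one_div, div_le_div_iff₀ b a]
  linarith

lemma agree (u w : ℕ →*₀ ℂ) (n : ℕ) : (∀ p : ℕ, p.Prime → p ∣ n → u p = w p) → u n = w n := by
  induction n using Nat.strong_induction_on with
  | _ n ih =>
    intro h
    rcases Nat.eq_zero_or_pos n with rfl | hn
    · simp
    rcases eq_or_ne n 1 with rfl | h1
    · simp
    have hp := Nat.minFac_prime h1
    have hd := Nat.minFac_dvd n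
    calc u n = u (n.minFac * (n / n.minFac)) := by rw [Nat.mul_div_cancel' hd]
      _ = u n.minFac * u (n / n.minFac) := map_mul _ _ _
      _ = w n.minFac * w (n / n.minFac) := by
          rw [h _ hp hd, ih _ (Nat.div_lt_self hn hp.one_lt)
            (fun p hp' hd' => h p hp' (hd'.trans (Nat.div_dvd_of_dvd hd)))]
      _ = w n := by rw [← map_mul, Nat.mul_div_cancel' hd]

lemma S_split (u : ℕ →*₀ ℂ) (P : ℕ) (hP : 0 < P) (N : ℕ) :
    S u N = ∑ n ∈ Icc 1 N, (if P ∣ n then 0 else u n) + u P * S u (N / P) := by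
  have h := sum_multiples P hP u N
  unfold S
  rw [Finset.mul_sum]
  have h2 : ∑ m ∈ Icc 1 (N / P), u P * u m = ∑ m ∈ Icc 1 (N / P), u (P * m) :=
    Finset.sum_congr rfl fun m _ => (map_mul u P m).symm
  rw [h2, ← h, ← Finset.sum_add_distrib]
  refine Finset.sum_congr rfl fun n _ => ?_
  by_cases hd : P ∣ n
  · rw [if_pos hd, if_pos hd, zero_add]
  · rw [if_neg hd, if_neg hd, add_zero]

lemma step_eq (u w : ℕ →*₀ ℂ) (P : ℕ) (hP : P.Prime)
    (h : ∀ p : ℕ, p.Prime → p ≠ P → u p = w p) (N : ℕ) :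
    S w N - S u N = w P * (S w (N / P) - S u (N / P)) + (w P - u P) * S u (N / P) := by
  have e1 := S_split u P hP.pos N
  have e2 := S_split w P hP.pos N
  have e3 : ∑ n ∈ Icc 1 N, (if P ∣ n then 0 else u n) =
      ∑ n ∈ Icc 1 N, (if P ∣ n then 0 else w n) := by
    refine Finset.sum_congr rfl fun n _ => ?_
    by_cases hd : P ∣ n
    · rw [if_pos hd, if_pos hd]
    · rw [if_neg hd, if_neg hd]
      exact agree u w n fun p hp hpn => h p hp (by rintro rfl; exact hd hpn)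
  rw [e3] at e1
  rw [e1, e2]
  ring

lemma sq_prime (P : ℕ) (hP : P.Prime) : (4 / 3 : ℝ) ≤ Real.sqrt P := by
  apply Real.le_sqrt_of_sq_le
  have : (2 : ℝ) ≤ P := by exact_mod_cast hP.two_le
  norm_num
  linarith

lemma step_bd (u w : ℕ →*₀ ℂ) (P : ℕ) (hP : P.Prime)
    (h : ∀ p : ℕ, p.Prime → p ≠ P → u p = w p) (hw : ‖w P‖ * Real.sqrt P ≤ 3 / 4) (C : ℝ)
    (hC : 0 ≤ C) (hu : ∀ N, ‖S u N‖ ≤ C * wt N) (N : ℕ) :
    ‖S w N - S u N‖ ≤ 4 * Real.sqrt P * ‖w P - u P‖ * C * wt N := by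
  induction N using Nat.strong_induction_on with
  | _ N ih =>
    rcases Nat.eq_zero_or_pos N with rfl | hN
    · rw [S_zero, S_zero, sub_zero, norm_zero]
      have := wt_pos 0
      positivity
    rw [step_eq u w P hP h N]
    have h1 := ih (N / P) (Nat.div_lt_self hN hP.one_lt)
    have h2 := hu (N / P)
    have h3 := wt_div P hP.pos N
    have hs := sq_prime P hP
    have hss : Real.sqrt P * Real.sqrt P = P := Real.mul_self_sqrt (by positivity)
    have hP0 : (0 : ℝ) < P := by exact_mod_cast hP.pos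
    have hwt := wt_pos N
    generalize Real.sqrt P = s at *
    have hd : 0 ≤ ‖w P - u P‖ := norm_nonneg _
    calc ‖w P * (S w (N / P) - S u (N / P)) + (w P - u P) * S u (N / P)‖
        ≤ ‖w P‖ * ‖S w (N / P) - S u (N / P)‖ + ‖w P - u P‖ * ‖S u (N / P)‖ :=
          (norm_add_le _ _).trans (by rw [norm_mul, norm_mul])
      _ ≤ ‖w P‖ * (4 * s * ‖w P - u P‖ * C * wt (N / P)) +
            ‖w P - u P‖ * (C * wt (N / P)) := by
          gcongr
      _ ≤ ‖w P‖ * (4 * s * ‖w P - u P‖ * C * (s * wt N)) +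
            ‖w P - u P‖ * (C * (s * wt N)) := by
          gcongr
      _ = (4 * (‖w P‖ * s) + 1) * (s * (‖w P - u P‖ * C * wt N)) := by ring
      _ ≤ 4 * (s * (‖w P - u P‖ * C * wt N)) := by
          apply mul_le_mul_of_nonneg_right (by linarith) (by positivity)
      _ = _ := by ring

/-- `g(N) = o(N ^ (-1/2))` -/
def Small (g : ℕ → ℂ) : Prop :=
  ∀ ε : ℝ, 0 < ε → ∃ N1 : ℕ, ∀ N : ℕ, N1 ≤ N → ‖g N‖ ≤ ε * wt N

lemma step_small (u w : ℕ →*₀ ℂ) (P : ℕ) (hP : P.Prime)
    (h : ∀ p : ℕ, p.Prime → p ≠ P → u p = w p) (hw : ‖w P‖ * Real.sqrt P ≤ 3 / 4)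
    (hus : Small (fun N => S u N)) (K : ℝ) (hK0 : 0 ≤ K)
    (hK : ∀ N, ‖S w N - S u N‖ ≤ K * wt N) : Small (fun N => S w N) := by
  have hs := sq_prime P hP
  have hss : Real.sqrt P * Real.sqrt P = P := Real.mul_self_sqrt (by positivity)
  have hP0 : (0 : ℝ) < P := by exact_mod_cast hP.pos
  have hwd := wt_div P hP.pos
  generalize Real.sqrt P = s at *
  have hs0 : 0 < s := by linarith
  have hd : 0 ≤ ‖w P - u P‖ := norm_nonneg _
  have e0 : ‖w P‖ * s ≤ 3 / 4 := hw
  have key : ∀ k : ℕ, ∀ ε : ℝ, 0 < ε → ∃ N1 : ℕ, ∀ N : ℕ, N1 ≤ N →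
      ‖S w N - S u N‖ ≤ ((3 / 4) ^ k * K + ε) * wt N := by
    intro k
    induction k with
    | zero =>
      intro ε hε
      refine ⟨0, fun N _ => (hK N).trans ?_⟩
      have := wt_pos N
      rw [pow_zero, one_mul]
      nlinarith
    | succ k ih =>
      intro ε hε
      obtain ⟨N1, h1⟩ := ih (ε / 2) (by positivity)
      obtain ⟨N2, h2⟩ := hus (ε / (8 * (s * (‖w P - u P‖ + 1)))) (by positivity)
      refine ⟨(N1 + N2) * P, fun N hN => ?_⟩
      have hNP : N1 + N2 ≤ N / P := (Nat.le_div_iff_mul_le hP.pos).2 hN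
      rw [step_eq u w P hP h N]
      have a1 := h1 (N / P) (by omega)
      have a2 := h2 (N / P) (by omega)
      have a3 := hwd N
      have hwt := wt_pos N
      have a4 : ‖w P - u P‖ * (ε / (8 * (s * (‖w P - u P‖ + 1))) * (s * wt N)) ≤
          ε / 8 * wt N := by
        have e : ‖w P - u P‖ * (ε / (8 * (s * (‖w P - u P‖ + 1))) * (s * wt N)) =
            (‖w P - u P‖ / (‖w P - u P‖ + 1)) * (ε / 8 * wt N) := by
          have : ‖w P - u P‖ + 1 ≠ 0 := by positivity
          field_simp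
        rw [e]
        have : ‖w P - u P‖ / (‖w P - u P‖ + 1) ≤ 1 := by
          rw [div_le_one (by positivity)]
          linarith
        exact mul_le_of_le_one_left (by positivity) this
      calc ‖w P * (S w (N / P) - S u (N / P)) + (w P - u P) * S u (N / P)‖
          ≤ ‖w P‖ * ‖S w (N / P) - S u (N / P)‖ + ‖w P - u P‖ * ‖S u (N / P)‖ :=
            (norm_add_le _ _).trans (by rw [norm_mul, norm_mul])
        _ ≤ ‖w P‖ * (((3 / 4) ^ k * K + ε / 2) * wt (N / P)) +
              ‖w P - u P‖ * (ε / (8 * (s * (‖w P - u P‖ + 1))) * wt (N / P)) := by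
            gcongr
        _ ≤ ‖w P‖ * (((3 / 4) ^ k * K + ε / 2) * (s * wt N)) +
              ‖w P - u P‖ * (ε / (8 * (s * (‖w P - u P‖ + 1))) * (s * wt N)) := by
            gcongr
        _ = (‖w P‖ * s) * (((3 / 4) ^ k * K + ε / 2) * wt N) +
              ‖w P - u P‖ * (ε / (8 * (s * (‖w P - u P‖ + 1))) * (s * wt N)) := by ring
        _ ≤ (3 / 4) * (((3 / 4) ^ k * K + ε / 2) * wt N) + ε / 8 * wt N :=
            add_le_add (mul_le_mul_of_nonneg_right e0 (by positivity)) a4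
        _ ≤ ((3 / 4) ^ (k + 1) * K + ε) * wt N := by
            rw [pow_succ]
            nlinarith [mul_pos hε hwt]
  intro ε hε
  obtain ⟨k, hk⟩ := exists_pow_lt_of_lt_one (show (0 : ℝ) < ε / (3 * (K + 1)) by positivity)
    (show (3 / 4 : ℝ) < 1 by norm_num)
  obtain ⟨N1, h1⟩ := key k (ε / 3) (by positivity)
  obtain ⟨N2, h2⟩ := hus (ε / 3) (by positivity)
  refine ⟨N1 + N2, fun N hN => ?_⟩
  have a1 := h1 N (by omega)
  have a2 := h2 N (by omega)
  have hwt := wt_pos N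
  have a3 : (3 / 4 : ℝ) ^ k * K ≤ ε / 3 := by
    have : (3 / 4 : ℝ) ^ k * (K + 1) ≤ ε / 3 := by
      have := mul_le_mul_of_nonneg_right hk.le (show (0 : ℝ) ≤ K + 1 by linarith)
      refine this.trans (le_of_eq ?_)
      field_simp
    have h0 : (0 : ℝ) ≤ (3 / 4 : ℝ) ^ k := by positivity
    nlinarith
  calc ‖S w N‖ = ‖(S w N - S u N) + S u N‖ := by rw [sub_add_cancel]
    _ ≤ ‖S w N - S u N‖ + ‖S u N‖ := norm_add_le _ _
    _ ≤ ((3 / 4) ^ k * K + ε / 3) * wt N + ε / 3 * wt N := add_le_add a1 a2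
    _ ≤ ε * wt N := by nlinarith

/-- the completely multiplicative function with given values at the primes -/
noncomputable def mk (v : ℕ → ℂ) : ℕ →*₀ ℂ where
  toFun n := if n = 0 then 0 else n.factorization.prod fun p k => v p ^ k
  map_zero' := by simp
  map_one' := by simp
  map_mul' m n := by
    rcases eq_or_ne m 0 with rfl | hm
    · simp
    rcases eq_or_ne n 0 with rfl | hn
    · simp
    rw [if_neg hm, if_neg hn, if_neg (mul_ne_zero hm hn), Nat.factorization_mul hm hn,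
      Finsupp.prod_add_index' (fun _ => pow_zero _) (fun _ _ _ => pow_add _ _ _)]

lemma mk_prime (v : ℕ → ℂ) (p : ℕ) (hp : p.Prime) : mk v p = v p := by
  show (if p = 0 then 0 else p.factorization.prod fun p k => v p ^ k) = v p
  rw [if_neg hp.ne_zero, hp.factorization]
  simp [Finsupp.prod_single_index]

lemma S_agree (u w : ℕ →*₀ ℂ) (N : ℕ) (h : ∀ p : ℕ, p.Prime → p ≤ N → u p = w p) :
    S u N = S w N := by
  unfold S
  refine Finset.sum_congr rfl fun n hn => agree u w n fun p hp hd => h p hp ?_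
  rw [Finset.mem_Icc] at hn
  exact (Nat.le_of_dvd hn.1 hd).trans hn.2

end Pool.Agent.U112.CM
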